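import Pool.Agent.Helper49.SH.Df

/-!
PROJECT ALLQ, block E1: calculus of the functions in `AT` and `AlgT`.
-/

set_option autoImplicit false
set_option linter.unusedSectionVars false

namespace Pool.Agent.Helper52.SH

open Finset Complex Pool.Agent.Helper49.SH

variable {ι ι' : Type} [Fintype ι] [Fintype ι']

/-! ### the bilinear form -/

theorem Eb_add_right (E : ι → ι → ℚ) (e a b : ι → ℂ) : Eb E e (a + b) = Eb E e a + Eb E e b := by
  simp only [Eb, Pi.add_apply, mul_add, Finset.sum_add_distrib]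

theorem Eb_add_left (E : ι → ι → ℚ) (a b e : ι → ℂ) : Eb E (a + b) e = Eb E a e + Eb E b e := by
  simp only [Eb, Pi.add_apply, mul_add, add_mul, Finset.sum_add_distrib]

theorem Eb_smul_right (E : ι → ι → ℚ) (e a : ι → ℂ) (s : ℂ) : Eb E e (s • a) = s * Eb E e a := by
  simp only [Eb, Pi.smul_apply, smul_eq_mul, Finset.mul_sum]
  exact Finset.sum_congr rfl fun i _ => Finset.sum_congr rfl fun j _ => by ring

theorem Eb_smul_left (E : ι → ι → ℚ) (e a : ι → ℂ) (s : ℂ) : Eb E (s • e) a = s * Eb E e a := by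
  simp only [Eb, Pi.smul_apply, smul_eq_mul, Finset.mul_sum]
  exact Finset.sum_congr rfl fun i _ => Finset.sum_congr rfl fun j _ => by ring

theorem Eb_neg_right (E : ι → ι → ℚ) (e a : ι → ℂ) : Eb E e (-a) = -Eb E e a := by
  have h := Eb_smul_right E e a (-1)
  rwa [neg_one_smul, neg_one_mul] at h

theorem Eb_neg_left (E : ι → ι → ℚ) (e a : ι → ℂ) : Eb E (-e) a = -Eb E e a := by
  have h := Eb_smul_left E e a (-1)
  rwa [neg_one_smul, neg_one_mul] at h

theorem Eb_alt {E : ι → ι → ℚ} (hE : ∀ i j, E i j = -E j i) (a b : ι → ℂ) :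
    Eb E a b = -Eb E b a := by
  unfold Eb
  rw [Finset.sum_comm, ← Finset.sum_neg_distrib]
  refine Finset.sum_congr rfl fun i _ => ?_
  rw [← Finset.sum_neg_distrib]
  refine Finset.sum_congr rfl fun j _ => ?_
  rw [hE j i]
  push_cast
  ring

theorem Eb_self {E : ι → ι → ℚ} (hE : ∀ i j, E i j = -E j i) (a : ι → ℂ) : Eb E a a = 0 := by
  have h := Eb_alt hE a a
  have h2 : (2 : ℂ) * Eb E a a = 0 := by linear_combination h
  exact (mul_eq_zero.1 h2).resolve_left two_ne_zero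

theorem Eb_add_form (E E' : ι → ι → ℚ) (a b : ι → ℂ) : Eb (E + E') a b = Eb E a b + Eb E' a b := by
  simp only [Eb, Pi.add_apply, Rat.cast_add, add_mul, Finset.sum_add_distrib]

/-- values at rational points are rational -/
theorem Eb_rv (E : ι → ι → ℚ) (s t : ι → ℚ) :
    Eb E (rv s) (rv t) = ((∑ i, ∑ j, E i j * s i * t j : ℚ) : ℂ) := by
  unfold Eb rv
  push_cast
  rfl

theorem rv_add (s t : ι → ℚ) : rv (s + t) = rv s + rv t := by
  funext i
  simp [rv]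

theorem rv_neg (t : ι → ℚ) : rv (-t) = -rv t := by
  funext i
  simp [rv]

theorem rv_smul (c : ℚ) (t : ι → ℚ) : rv (c • t) = (c : ℂ) • rv t := by
  funext i
  simp [rv]

theorem zv_smul (k : ℤ) (l : ι → ℤ) : zv (k • l) = (k : ℂ) • zv l := by
  funext i
  simp [zv]

theorem zv_nsmul (k : ℕ) (l : ι → ℤ) : zv ((k : ℤ) • l) = (k : ℂ) • zv l := by
  funext i
  simp [zv]

theorem mv_rv (M : ι → ι' → ℚ) (t : ι' → ℚ) : mv M (rv t) = rv (fun i => ∑ j, M i j * t j) := by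
  funext i
  simp [mv, rv]

theorem mvL_apply (M : ι → ι' → ℚ) (w : ι' → ℂ) : mvL M w = mv M w := rfl

theorem mv_add (M : ι → ι' → ℚ) (a b : ι' → ℂ) : mv M (a + b) = mv M a + mv M b :=
  (mvL M).map_add a b

theorem mv_smul (M : ι → ι' → ℚ) (c : ℂ) (a : ι' → ℂ) : mv M (c • a) = c • mv M a :=
  (mvL M).map_smul c a

theorem Eb_pb (E : ι → ι → ℚ) (M : ι → ι' → ℚ) (a b : ι' → ℂ) :
    Eb (pb E M) a b = Eb E (mv M a) (mv M b) := by
  unfold Eb pb mv
  push_cast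
  have h1 : ∀ i j : ι, (E i j : ℂ) * (∑ i', (M i i' : ℂ) * a i') * (∑ j', (M j j' : ℂ) * b j') =
      ∑ i', ∑ j', (E i j : ℂ) * M i i' * M j j' * a i' * b j' := by
    intro i j
    rw [mul_assoc, Finset.sum_mul_sum, Finset.mul_sum]
    refine Finset.sum_congr rfl fun i' _ => ?_
    rw [Finset.mul_sum]
    exact Finset.sum_congr rfl fun j' _ => by ring
  simp only [h1, Finset.sum_mul]
  have h4 : ∀ g : ι → ι' → ι' → ℂ, (∑ j : ι, ∑ i' : ι', ∑ j' : ι', g j i' j') =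
      ∑ i' : ι', ∑ j' : ι', ∑ j : ι, g j i' j' := by
    intro g
    have h5 : (∑ j : ι, ∑ i' : ι', ∑ j' : ι', g j i' j') =
      ∑ i' : ι', ∑ j : ι, ∑ j' : ι', g j i' j' := Finset.sum_comm
    rw [h5]
    refine Finset.sum_congr rfl fun i' _ => ?_
    have h6 : (∑ j : ι, ∑ j' : ι', g j i' j') = ∑ j' : ι', ∑ j : ι, g j i' j' :=
      Finset.sum_comm
    exact h6
  have h2 : ∀ i : ι, (∑ j : ι, ∑ i' : ι', ∑ j' : ι', (E i j : ℂ) * M i i' * M j j' * a i' * b j') =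
      ∑ i' : ι', ∑ j' : ι', ∑ j : ι, (E i j : ℂ) * M i i' * M j j' * a i' * b j' := fun i =>
    h4 fun j i' j' => (E i j : ℂ) * M i i' * M j j' * a i' * b j'
  simp only [h2]
  exact (h4 fun i i' j' => ∑ j : ι, (E i j : ℂ) * M i i' * M j j' * a i' * b j').symm

/-! ### roots of unity -/

theorem alg_exp (r : ℚ) : IsAlgebraic ℚ (exp (Real.pi * I * (r : ℂ))) := by
  have hd : (r.den : ℂ) ≠ 0 := Nat.cast_ne_zero.2 r.den_ne_zero
  have h1 : exp (Real.pi * I * (r : ℂ)) ^ (2 * r.den) = 1 := by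
    rw [← exp_nat_mul, exp_eq_one_iff]
    refine ⟨r.num, ?_⟩
    have h2 : (r : ℂ) = (r.num : ℂ) / (r.den : ℂ) := Rat.cast_def r
    rw [h2]
    push_cast
    field_simp
  refine IsAlgebraic.of_pow (n := 2 * r.den) (by have := r.den_pos; omega) ?_
  rw [h1]
  exact isAlgebraic_one

/-- `E(e, .)` as a continuous linear map -/
noncomputable def EbL (E : ι → ι → ℚ) (e : ι → ℂ) : (ι → ℂ) →L[ℂ] ℂ :=
  LinearMap.toContinuousLinearMap
    { toFun := fun w => Eb E e w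
      map_add' := Eb_add_right E e
      map_smul' := fun c a => Eb_smul_right E e a c }

theorem EbL_apply (E : ι → ι → ℚ) (e w : ι → ℂ) : EbL E e w = Eb E e w := rfl

theorem hasFDerivAt_Eb (E : ι → ι → ℚ) (e w : ι → ℂ) :
    HasFDerivAt (fun w => Eb E e w) (EbL E e) w := (EbL E e).hasFDerivAt

/-- common denominator -/
theorem exists_den {κ : Type} [Fintype κ] (f : κ → ℚ) :
    ∃ d : ℕ, 1 ≤ d ∧ ∃ z : κ → ℤ, ∀ i, (d : ℚ) * f i = z i := by
  classical
  refine ⟨∏ i, (f i).den, Finset.prod_pos fun i _ => (f i).den_pos, ?_⟩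
  have h : ∀ i, ∃ z : ℤ, ((∏ i, (f i).den : ℕ) : ℚ) * f i = z := by
    intro i
    refine ⟨(∏ j ∈ Finset.univ.erase i, ((f j).den : ℤ)) * (f i).num, ?_⟩
    rw [← Finset.mul_prod_erase Finset.univ (fun i => (f i).den) (Finset.mem_univ i)]
    push_cast
    have h1 : ((f i).den : ℚ) * f i = (f i).num := by
      rw [mul_comm]
      exact_mod_cast Rat.mul_den_eq_num (f i)
    rw [← h1]
    ring
  exact ⟨fun i => (h i).choose, fun i => (h i).choose_spec⟩

/-! ### quasi-periodicity -/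

theorem per_mul {E : ι → ι → ℚ} {F : (ι → ℂ) → ℂ} {k : ℕ}
    (h : ∀ (l : ι → ℤ) (w : ι → ℂ),
      F (w + (k : ℂ) • zv l) = exp (-(Real.pi * I * k * Eb E (zv l) w)) * F w) (d : ℕ)
    (l : ι → ℤ) (w : ι → ℂ) :
    F (w + ((k * d : ℕ) : ℂ) • zv l) =
      exp (-(Real.pi * I * (k * d : ℕ) * Eb E (zv l) w)) * F w := by
  have h1 := h ((d : ℤ) • l) w
  rw [zv_nsmul, smul_smul, Eb_smul_left] at h1
  push_cast
  rw [h1]
  congr 2
  ring

theorem per_mul' {E : ι → ι → ℚ} {F : (ι → ℂ) → ℂ} {k : ℕ}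
    (h : ∀ (l : ι → ℤ) (w : ι → ℂ),
      F (w + (k : ℂ) • zv l) = exp (-(Real.pi * I * k * Eb E (zv l) w)) * F w) (d : ℕ)
    (l : ι → ℤ) (w : ι → ℂ) :
    F (w + ((d * k : ℕ) : ℂ) • zv l) =
      exp (-(Real.pi * I * (d * k : ℕ) * Eb E (zv l) w)) * F w := by
  rw [mul_comm d k]
  exact per_mul h d l w

/-! ### magnetic translations -/

theorem hasFDerivAt_Ut {E : ι → ι → ℚ} {F : (ι → ℂ) → ℂ} (h : Differentiable ℂ F) (t : ι → ℚ)
    (w : ι → ℂ) :
    HasFDerivAt (Ut E t F)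
      (exp (Real.pi * I * Eb E (rv t) w) • fderiv ℂ F (w + rv t) +
        F (w + rv t) • (exp (Real.pi * I * Eb E (rv t) w) •
          ((Real.pi * I : ℂ) • EbL E (rv t)))) w := by
  have h1 : HasFDerivAt (fun w => exp (Real.pi * I * Eb E (rv t) w))
      (exp (Real.pi * I * Eb E (rv t) w) • ((Real.pi * I : ℂ) • EbL E (rv t))) w :=
    ((hasFDerivAt_Eb E (rv t) w).const_mul (Real.pi * I : ℂ)).cexp
  have h2 : HasFDerivAt (fun w => F (w + rv t)) (fderiv ℂ F (w + rv t)) w := by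
    have h3 := (h (w + rv t)).hasFDerivAt.comp w ((hasFDerivAt_id w).add_const (rv t))
    exact h3
  exact h1.mul h2

theorem fderiv_Ut {E : ι → ι → ℚ} {F : (ι → ℂ) → ℂ} (h : Differentiable ℂ F) (t : ι → ℚ)
    (w e : ι → ℂ) :
    fderiv ℂ (Ut E t F) w e = exp (Real.pi * I * Eb E (rv t) w) *
      (fderiv ℂ F (w + rv t) e + Real.pi * I * Eb E (rv t) e * F (w + rv t)) := by
  rw [(hasFDerivAt_Ut h t w).fderiv]
  simp only [add_apply, smul_apply, EbL_apply, smul_eq_mul]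
  ring

theorem nab_Ut {E : ι → ι → ℚ} {F : (ι → ℂ) → ℂ} (hE : ∀ i j, E i j = -E j i)
    (h : Differentiable ℂ F) (t : ι → ℚ) (e w : ι → ℂ) :
    nab E e (Ut E t F) w = exp (Real.pi * I * Eb E (rv t) w) * nab E e F (w + rv t) := by
  unfold nab
  rw [fderiv_Ut h, Eb_add_right, Eb_alt hE e (rv t)]
  unfold Ut
  ring

theorem AT_Ut {E : ι → ι → ℚ} {N : Submodule ℂ (ι → ℂ)} {F : (ι → ℂ) → ℂ}
    (hE : ∀ i j, E i j = -E j i) (h : AT E N F) (t : ι → ℚ) : AT E N (Ut E t F) := by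
  refine ⟨fun w => (hasFDerivAt_Ut h.diff t w).differentiableAt, ?_, ?_⟩
  · intro e he w
    rw [fderiv_Ut h.diff, h.hol e he, Eb_add_right, Eb_alt hE e (rv t)]
    unfold Ut
    ring
  · obtain ⟨k, hk, hper⟩ := h.per
    obtain ⟨d, hd, z, hz⟩ := exists_den fun j => ∑ i, E i j * t i
    refine ⟨k * d, Nat.mul_pos hk hd, fun l w => ?_⟩
    have h1 : (d : ℂ) * Eb E (rv t) (zv l) = ((∑ j, z j * l j : ℤ) : ℂ) := by
      have h2 : Eb E (rv t) (zv l) = ∑ j, ((∑ i, E i j * t i : ℚ) : ℂ) * (l j : ℂ) := by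
        unfold Eb rv zv
        rw [Finset.sum_comm]
        refine Finset.sum_congr rfl fun j _ => ?_
        push_cast
        rw [Finset.sum_mul]
      rw [h2, Finset.mul_sum]
      push_cast
      refine Finset.sum_congr rfl fun j _ => ?_
      rw [← mul_assoc]
      congr 1
      have h3 := hz j
      exact_mod_cast congrArg (Rat.cast : ℚ → ℂ) h3
    unfold Ut
    rw [add_right_comm, per_mul hper d, Eb_add_right, Eb_smul_right, Eb_add_right,
      Eb_alt hE (zv l) (rv t), ← mul_assoc, ← mul_assoc, ← exp_add, ← exp_add]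
    congr 1
    rw [exp_eq_exp_iff_exists_int]
    refine ⟨k * ∑ j, z j * l j, ?_⟩
    push_cast
    push_cast at h1
    rw [← h1]
    ring

theorem AlgT_Ut {E : ι → ι → ℚ} {N : Submodule ℂ (ι → ℂ)} {F : (ι → ℂ) → ℂ}
    (hE : ∀ i j, E i j = -E j i) (h : AlgT E N F) (t : ι → ℚ) : AlgT E N (Ut E t F) := by
  refine ⟨AT_Ut hE h.toAT t, fun s => ?_⟩
  unfold Ut
  rw [Eb_rv, ← rv_add]
  exact (alg_exp _).mul (h.val _)

/-! ### sums, products, reflection -/

theorem AT_add {E : ι → ι → ℚ} {N : Submodule ℂ (ι → ℂ)} {F G : (ι → ℂ) → ℂ}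
    (h : AT E N F) (h' : AT E N G) : AT E N (F + G) := by
  refine ⟨h.diff.add h'.diff, ?_, ?_⟩
  · intro e he w
    rw [fderiv_add (h.diff w) (h'.diff w), add_apply, h.hol e he, h'.hol e he, Pi.add_apply]
    ring
  · obtain ⟨k, hk, hper⟩ := h.per
    obtain ⟨k', hk', hper'⟩ := h'.per
    refine ⟨k * k', Nat.mul_pos hk hk', fun l w => ?_⟩
    rw [Pi.add_apply, Pi.add_apply, per_mul hper k', per_mul' hper' k]
    ring

theorem AlgT_add {E : ι → ι → ℚ} {N : Submodule ℂ (ι → ℂ)} {F G : (ι → ℂ) → ℂ}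
    (h : AlgT E N F) (h' : AlgT E N G) : AlgT E N (F + G) :=
  ⟨AT_add h.toAT h'.toAT, fun t => (h.val t).add (h'.val t)⟩

theorem AT_smul {E : ι → ι → ℚ} {N : Submodule ℂ (ι → ℂ)} {F : (ι → ℂ) → ℂ}
    (h : AT E N F) (c : ℂ) : AT E N (c • F) := by
  refine ⟨h.diff.const_smul c, ?_, ?_⟩
  · intro e he w
    rw [fderiv_const_smul (h.diff w), smul_apply, h.hol e he, Pi.smul_apply, smul_eq_mul,
      smul_eq_mul]
    ring
  · obtain ⟨k, hk, hper⟩ := h.per
    refine ⟨k, hk, fun l w => ?_⟩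
    rw [Pi.smul_apply, Pi.smul_apply, hper, smul_eq_mul, smul_eq_mul]
    ring

theorem AlgT_smul {E : ι → ι → ℚ} {N : Submodule ℂ (ι → ℂ)} {F : (ι → ℂ) → ℂ}
    (h : AlgT E N F) {c : ℂ} (hc : IsAlgebraic ℚ c) : AlgT E N (c • F) :=
  ⟨AT_smul h.toAT c, fun t => hc.mul (h.val t)⟩

theorem AT_mul {E E' : ι → ι → ℚ} {N : Submodule ℂ (ι → ℂ)} {F G : (ι → ℂ) → ℂ}
    (h : AT E N F) (h' : AT E' N G) : AT (E + E') N (F * G) := by
  refine ⟨h.diff.mul h'.diff, ?_, ?_⟩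
  · intro e he w
    rw [fderiv_mul (h.diff w) (h'.diff w), add_apply, smul_apply, smul_apply, h.hol e he,
      h'.hol e he, Pi.mul_apply, Eb_add_form, smul_eq_mul, smul_eq_mul]
    ring
  · obtain ⟨k, hk, hper⟩ := h.per
    obtain ⟨k', hk', hper'⟩ := h'.per
    refine ⟨k * k', Nat.mul_pos hk hk', fun l w => ?_⟩
    rw [Pi.mul_apply, Pi.mul_apply, per_mul hper k', per_mul' hper' k, Eb_add_form, mul_add,
      neg_add, exp_add]
    ring

theorem AlgT_mul {E E' : ι → ι → ℚ} {N : Submodule ℂ (ι → ℂ)} {F G : (ι → ℂ) → ℂ}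
    (h : AlgT E N F) (h' : AlgT E' N G) : AlgT (E + E') N (F * G) :=
  ⟨AT_mul h.toAT h'.toAT, fun t => (h.val t).mul (h'.val t)⟩

theorem AT_neg {E : ι → ι → ℚ} {N : Submodule ℂ (ι → ℂ)} {F : (ι → ℂ) → ℂ}
    (h : AT E N F) : AT E N (fun w => F (-w)) := by
  have h1 : ∀ w, HasFDerivAt (fun w => F (-w)) (-(fderiv ℂ F (-w))) w := by
    intro w
    have h2 := (h.diff (-w)).hasFDerivAt.comp w (hasFDerivAt_id w).neg
    refine h2.congr_fderiv ?_
    ext v
    simp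
  refine ⟨fun w => (h1 w).differentiableAt, ?_, ?_⟩
  · intro e he w
    rw [(h1 w).fderiv, neg_apply, h.hol e he, Eb_neg_right]
    ring
  · obtain ⟨k, hk, hper⟩ := h.per
    refine ⟨k, hk, fun l w => ?_⟩
    have h3 := hper (-l) (-w)
    have h4 : zv (-l) = -zv l := by
      funext i
      simp [zv]
    rw [h4, smul_neg, ← neg_add, Eb_neg_left, Eb_neg_right, neg_neg] at h3
    exact h3

theorem AlgT_neg {E : ι → ι → ℚ} {N : Submodule ℂ (ι → ℂ)} {F : (ι → ℂ) → ℂ}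
    (h : AlgT E N F) : AlgT E N (fun w => F (-w)) := by
  refine ⟨AT_neg h.toAT, fun t => ?_⟩
  have h1 := h.val (-t)
  rwa [rv_neg] at h1

theorem AT_mono {E : ι → ι → ℚ} {N N' : Submodule ℂ (ι → ℂ)} (hN : N' ≤ N) {F : (ι → ℂ) → ℂ}
    (h : AT E N F) : AT E N' F :=
  ⟨h.diff, fun e he => h.hol e (hN he), h.per⟩

theorem AlgT_mono {E : ι → ι → ℚ} {N N' : Submodule ℂ (ι → ℂ)} (hN : N' ≤ N) {F : (ι → ℂ) → ℂ}
    (h : AlgT E N F) : AlgT E N' F :=
  ⟨AT_mono hN h.toAT, h.val⟩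

/-! ### pull back -/

theorem hasFDerivAt_pull {F : (ι → ℂ) → ℂ} (h : Differentiable ℂ F) (M : ι → ι' → ℚ)
    (w : ι' → ℂ) :
    HasFDerivAt (fun w => F (mv M w))
      ((fderiv ℂ F (mv M w)).comp (LinearMap.toContinuousLinearMap (mvL M))) w :=
  (h (mv M w)).hasFDerivAt.comp w (LinearMap.toContinuousLinearMap (mvL M)).hasFDerivAt

theorem fderiv_pull {F : (ι → ℂ) → ℂ} (h : Differentiable ℂ F) (M : ι → ι' → ℚ)
    (w e : ι' → ℂ) :
    fderiv ℂ (fun w => F (mv M w)) w e = fderiv ℂ F (mv M w) (mv M e) := by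
  rw [(hasFDerivAt_pull h M w).fderiv]
  rfl

theorem nab_pull {E : ι → ι → ℚ} {F : (ι → ℂ) → ℂ} (h : Differentiable ℂ F) (M : ι → ι' → ℚ)
    (e w : ι' → ℂ) :
    nab (pb E M) e (fun w => F (mv M w)) w = nab E (mv M e) F (mv M w) := by
  unfold nab
  rw [fderiv_pull h, Eb_pb]

theorem AT_pull {E : ι → ι → ℚ} {N : Submodule ℂ (ι → ℂ)} {F : (ι → ℂ) → ℂ}
    (h : AT E N F) (M : ι → ι' → ℚ) :
    AT (pb E M) (N.comap (mvL M)) (fun w => F (mv M w)) := by
  refine ⟨fun w => (hasFDerivAt_pull h.diff M w).differentiableAt, ?_, ?_⟩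
  · intro e he w
    rw [fderiv_pull h.diff, Eb_pb]
    exact h.hol _ he _
  · obtain ⟨k, hk, hper⟩ := h.per
    obtain ⟨d, hd, z, hz⟩ := exists_den fun p : ι × ι' => M p.1 p.2
    refine ⟨k * d, Nat.mul_pos hk hd, fun l w => ?_⟩
    have h1 : (d : ℂ) • mv M (zv l) = zv (fun i => ∑ j, z (i, j) * l j) := by
      funext i
      simp only [Pi.smul_apply, smul_eq_mul, mv, zv, Finset.mul_sum]
      push_cast
      refine Finset.sum_congr rfl fun j _ => ?_
      rw [← mul_assoc]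
      congr 1
      have h3 := hz (i, j)
      exact_mod_cast congrArg (Rat.cast : ℚ → ℂ) h3
    have h2 : mv M (w + ((k * d : ℕ) : ℂ) • zv l) =
        mv M w + (k : ℂ) • zv (fun i => ∑ j, z (i, j) * l j) := by
      rw [mv_add, mv_smul, ← h1, smul_smul]
      push_cast
      rfl
    simp only [h2]
    rw [hper, Eb_pb, ← h1, Eb_smul_left]
    congr 2
    push_cast
    ring

/-- pull back by any rational matrix -/
theorem AlgT_pull {E : ι → ι → ℚ} {N : Submodule ℂ (ι → ℂ)} {F : (ι → ℂ) → ℂ}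
    (h : AlgT E N F) (M : ι → ι' → ℚ) :
    AlgT (pb E M) (N.comap (mvL M)) (fun w => F (mv M w)) := by
  refine ⟨AT_pull h.toAT M, fun t => ?_⟩
  rw [mv_rv]
  exact h.val _

/-! ### products -/

theorem Eb_dsum (E : ι → ι → ℚ) (E' : ι' → ι' → ℚ) (a b : ι ⊕ ι' → ℂ) :
    Eb (dsum E E') a b = Eb E (fun i => a (Sum.inl i)) (fun i => b (Sum.inl i)) +
      Eb E' (fun i => a (Sum.inr i)) (fun i => b (Sum.inr i)) := by
  unfold Eb
  simp [Fintype.sum_sum_type, dsum]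

theorem AT_prod {E : ι → ι → ℚ} {N : Submodule ℂ (ι → ℂ)} {F : (ι → ℂ) → ℂ}
    {E' : ι' → ι' → ℚ} {N' : Submodule ℂ (ι' → ℂ)} {F' : (ι' → ℂ) → ℂ}
    (h : AT E N F) (h' : AT E' N' F') :
    AT (dsum E E') (Np N N')
      (fun w => F (fun i => w (Sum.inl i)) * F' (fun i => w (Sum.inr i))) := by
  have h1 : ∀ w : ι ⊕ ι' → ℂ, HasFDerivAt (fun w : ι ⊕ ι' → ℂ => F (fun i => w (Sum.inl i)))
      ((fderiv ℂ F (fun i => w (Sum.inl i))).comp
        (ContinuousLinearMap.pi fun i => ContinuousLinearMap.proj (Sum.inl i))) w := fun w =>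
    (h.diff _).hasFDerivAt.comp w
      (ContinuousLinearMap.pi fun i : ι => ContinuousLinearMap.proj (R := ℂ)
        (φ := fun _ : ι ⊕ ι' => ℂ) (Sum.inl i)).hasFDerivAt
  have h2 : ∀ w : ι ⊕ ι' → ℂ, HasFDerivAt (fun w : ι ⊕ ι' → ℂ => F' (fun i => w (Sum.inr i)))
      ((fderiv ℂ F' (fun i => w (Sum.inr i))).comp
        (ContinuousLinearMap.pi fun i => ContinuousLinearMap.proj (Sum.inr i))) w := fun w =>
    (h'.diff _).hasFDerivAt.comp w
      (ContinuousLinearMap.pi fun i : ι' => ContinuousLinearMap.proj (R := ℂ)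
        (φ := fun _ : ι ⊕ ι' => ℂ) (Sum.inr i)).hasFDerivAt
  refine ⟨fun w => ((h1 w).mul (h2 w)).differentiableAt, ?_, ?_⟩
  · rintro e ⟨he, he'⟩ w
    have h0 : HasFDerivAt (fun w : ι ⊕ ι' → ℂ => F (fun i => w (Sum.inl i)) *
      F' (fun i => w (Sum.inr i))) _ w := (h1 w).mul (h2 w)
    rw [h0.fderiv, Eb_dsum]
    have h3 := h.hol _ he fun i => w (Sum.inl i)
    have h4 := h'.hol _ he' fun i => w (Sum.inr i)
    simp only [add_apply, smul_apply, ContinuousLinearMap.comp_apply, smul_eq_mul]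
    change F (fun i => w (Sum.inl i)) * fderiv ℂ F' (fun i => w (Sum.inr i))
        (fun i => e (Sum.inr i)) + F' (fun i => w (Sum.inr i)) *
        fderiv ℂ F (fun i => w (Sum.inl i)) (fun i => e (Sum.inl i)) = _
    rw [h3, h4]
    ring
  · obtain ⟨k, hk, hper⟩ := h.per
    obtain ⟨k', hk', hper'⟩ := h'.per
    refine ⟨k * k', Nat.mul_pos hk hk', fun l w => ?_⟩
    have h3 := per_mul hper k' (fun i => l (Sum.inl i)) (fun i => w (Sum.inl i))
    have h4 := per_mul' hper' k (fun i => l (Sum.inr i)) (fun i => w (Sum.inr i))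
    change F ((fun i => w (Sum.inl i)) + ((k * k' : ℕ) : ℂ) • zv fun i => l (Sum.inl i)) *
      F' ((fun i => w (Sum.inr i)) + ((k * k' : ℕ) : ℂ) • zv fun i => l (Sum.inr i)) = _
    rw [h3, h4, Eb_dsum]
    have h5 : ∀ a b c d x y : ℂ, exp (-(a * x)) * c * (exp (-(a * y)) * d) =
        exp (-(a * (x + y))) * (c * d) := by
      intro a b c d x y
      rw [mul_add, neg_add, exp_add]
      ring
    exact h5 _ 0 _ _ _ _

theorem AlgT_prod {E : ι → ι → ℚ} {N : Submodule ℂ (ι → ℂ)} {F : (ι → ℂ) → ℂ}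
    {E' : ι' → ι' → ℚ} {N' : Submodule ℂ (ι' → ℂ)} {F' : (ι' → ℂ) → ℂ}
    (h : AlgT E N F) (h' : AlgT E' N' F') :
    AlgT (dsum E E') (Np N N')
      (fun w => F (fun i => w (Sum.inl i)) * F' (fun i => w (Sum.inr i))) :=
  ⟨AT_prod h.toAT h'.toAT, fun t => (h.val _).mul (h'.val _)⟩

end Pool.Agent.Helper52.SH
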