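import Pool.Agent.Helper49.SH.Df

/-!
PROJECT ALLQ, block E1: the immersion lemma `imm`.
-/

set_option autoImplicit false

namespace Pool.Agent.Helper52.SH

open Finset Complex Pool.Agent.Helper49.SH

variable {ι : Type} [Fintype ι]

private theorem imm_add (E : ι → ι → ℚ) (e a b : ι → ℂ) : Eb E e (a + b) = Eb E e a + Eb E e b := by
  simp only [Eb, Pi.add_apply, mul_add, Finset.sum_add_distrib]

private theorem imm_smul (E : ι → ι → ℚ) (e a : ι → ℂ) (s : ℂ) : Eb E e (s • a) = s * Eb E e a := by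
  simp only [Eb, Pi.smul_apply, smul_eq_mul, Finset.mul_sum]
  exact Finset.sum_congr rfl fun i _ => Finset.sum_congr rfl fun j _ => by ring

private theorem imm_alt {E : ι → ι → ℚ} (hE : ∀ i j, E i j = -E j i) (a b : ι → ℂ) :
    Eb E a b = -Eb E b a := by
  unfold Eb
  rw [Finset.sum_comm, ← Finset.sum_neg_distrib]
  refine Finset.sum_congr rfl fun i _ => ?_
  rw [← Finset.sum_neg_distrib]
  refine Finset.sum_congr rfl fun j _ => ?_
  rw [hE j i]
  push_cast
  ring

private theorem imm_self {E : ι → ι → ℚ} (hE : ∀ i j, E i j = -E j i) (a : ι → ℂ) :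
    Eb E a a = 0 := by
  have h := imm_alt hE a a
  have h2 : (2 : ℂ) * Eb E a a = 0 := by linear_combination h
  exact (mul_eq_zero.1 h2).resolve_left two_ne_zero

private theorem imm_ode {g : ℂ → ℂ} {c : ℂ} (h : ∀ s, HasDerivAt g (c * g s) s) (s : ℂ) :
    g s = g 0 * exp (c * s) := by
  have h1 : ∀ s, HasDerivAt (fun s => g s * exp (-(c * s))) 0 s := by
    intro s
    have h2 : HasDerivAt (fun s : ℂ => -(c * s)) (-c) s := by
      have h20 := ((hasDerivAt_id s).const_mul c).neg
      rw [mul_one] at h20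
      exact h20
    have h3 := (h s).mul h2.cexp
    refine h3.congr_deriv ?_
    ring
  have h4 := is_const_of_deriv_eq_zero (fun s => (h1 s).differentiableAt) (fun s => (h1 s).deriv) s 0
  simp only [mul_zero, neg_zero, exp_zero, mul_one] at h4
  rw [← h4, mul_assoc, ← exp_add, neg_add_cancel, exp_zero, mul_one]

private theorem imm_line {E : ι → ι → ℚ} (hE : ∀ i j, E i j = -E j i) {F : (ι → ℂ) → ℂ}
    (hd : Differentiable ℂ F) {e : ι → ℂ} {κ : ℂ}
    (h : ∀ w, fderiv ℂ F w e = (Real.pi * I * Eb E e w + κ) * F w) (w : ι → ℂ) (s : ℂ) :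
    F (w + s • e) = F w * exp ((Real.pi * I * Eb E e w + κ) * s) := by
  have h1 : ∀ s : ℂ, HasDerivAt (fun s : ℂ => F (w + s • e))
      ((Real.pi * I * Eb E e w + κ) * F (w + s • e)) s := by
    intro s
    have h2 : HasDerivAt (fun s : ℂ => w + s • e) e s := by
      simpa using ((hasDerivAt_id s).smul_const e).const_add w
    have h3 := (hd (w + s • e)).hasFDerivAt.comp_hasDerivAt s h2
    rw [h, imm_add, imm_smul, imm_self hE, mul_zero, add_zero] at h3
    exact h3
  have h4 := imm_ode h1 s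
  simpa using h4

/-- immersion -/
theorem imm {E : ι → ι → ℚ} {N : Submodule ℂ (ι → ℂ)} (hP : Pol E N) {F : (ι → ℂ) → ℂ}
    (h : AT E N F) (h0 : F ≠ 0) {e : ι → ℂ} (he : e ∈ Nc N) (he0 : e ≠ 0) (κ : ℂ) :
    ∃ w, nab E e F w ≠ κ * F w := by
  by_contra hcon
  push Not at hcon
  have hE := hP.alt
  have he' : cj e ∈ N := he
  have hcc : cj (cj e) = e := by
    funext i
    simp [cj]
  have hce0 : cj e ≠ 0 := by
    intro h1
    apply he0
    rw [← hcc, h1]
    funext i
    simp [cj]
  have hA : ∀ w, fderiv ℂ F w e = (Real.pi * I * Eb E e w + κ) * F w := by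
    intro w
    have h1 := hcon w
    unfold nab at h1
    linear_combination h1
  have hB : ∀ w, fderiv ℂ F w (cj e) = (Real.pi * I * Eb E (cj e) w + 0) * F w := by
    intro w
    rw [add_zero]
    exact h.hol _ he' w
  obtain ⟨w, hw⟩ : ∃ w, F w ≠ 0 := by
    by_contra h1
    push Not at h1
    exact h0 (funext h1)
  have key : ∀ s t : ℂ, exp (Real.pi * I * (s * t * Eb E e (cj e))) =
      exp (Real.pi * I * (s * t * Eb E (cj e) e)) := by
    intro s t
    have h1 : F (w + s • e + t • cj e) =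
        F w * exp ((Real.pi * I * Eb E e w + κ) * s) *
          exp ((Real.pi * I * (Eb E (cj e) w + s * Eb E (cj e) e) + 0) * t) := by
      rw [imm_line hE h.diff hB, imm_line hE h.diff hA, imm_add, imm_smul]
    have h2 : F (w + s • e + t • cj e) =
        F w * exp ((Real.pi * I * Eb E (cj e) w + 0) * t) *
          exp ((Real.pi * I * (Eb E e w + t * Eb E e (cj e)) + κ) * s) := by
      rw [add_right_comm, imm_line hE h.diff hA, imm_line hE h.diff hB, imm_add, imm_smul]
    rw [h1, mul_assoc (F w), mul_assoc (F w), ← exp_add, ← exp_add] at h2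
    have h3 := mul_left_cancel₀ hw h2
    have h4 : exp ((Real.pi * I * Eb E e w + κ) * s +
        (Real.pi * I * (Eb E (cj e) w + s * Eb E (cj e) e) + 0) * t) =
        exp ((Real.pi * I * Eb E e w + κ) * s + Real.pi * I * Eb E (cj e) w * t) *
          exp (Real.pi * I * (s * t * Eb E (cj e) e)) := by
      rw [← exp_add]
      congr 1
      ring
    have h5 : exp ((Real.pi * I * Eb E (cj e) w + 0) * t +
        (Real.pi * I * (Eb E e w + t * Eb E e (cj e)) + κ) * s) =
        exp ((Real.pi * I * Eb E e w + κ) * s + Real.pi * I * Eb E (cj e) w * t) *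
          exp (Real.pi * I * (s * t * Eb E e (cj e))) := by
      rw [← exp_add]
      congr 1
      ring
    rw [h4, h5] at h3
    exact (mul_left_cancel₀ (exp_ne_zero _) h3).symm
  have hpos := hP.pos (cj e) he' hce0
  rw [hcc] at hpos
  have hne : Eb E (cj e) e ≠ 0 := by
    intro h1
    rw [h1] at hpos
    simp at hpos
  have hpi : (Real.pi : ℂ) ≠ 0 := ofReal_ne_zero.2 Real.pi_ne_zero
  have h6 := key (2 * Real.pi * I * Eb E (cj e) e)⁻¹ 1
  rw [imm_alt hE e (cj e)] at h6
  have h7 : exp (Real.pi * I * ((2 * Real.pi * I * Eb E (cj e) e)⁻¹ * 1 * -Eb E (cj e) e)) =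
      exp (-(1 / 2 : ℝ)) := by
    congr 1
    push_cast
    field_simp
  have h8 : exp (Real.pi * I * ((2 * Real.pi * I * Eb E (cj e) e)⁻¹ * 1 * Eb E (cj e) e)) =
      exp ((1 / 2 : ℝ)) := by
    congr 1
    push_cast
    field_simp
  rw [h7, h8, ← ofReal_neg, ← ofReal_exp, ← ofReal_exp, ofReal_inj, Real.exp_eq_exp] at h6
  norm_num at h6

end Pool.Agent.Helper52.SH
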